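import Pool.Agent.Helper7.GeoProg.TG
import Pool.Agent.Helper7.GeoProg.TE2
import Pool.Agent.Helper7.GeoProg.P_V
import Pool.Agent.Helper7.GeoProg.P_D
import Pool.Agent.Helper7.GeoProg.P_RSD
import Pool.Agent.Helper7.GeoProg.P_L
import Pool.Agent.Helper7.GeoProg.P_Q
import Pool.Agent.Helper7.GeoProg.P_U
import Pool.Agent.Helper7.GeoProg.P_B
import Pool.Agent.Helper7.GeoProg.P_B3
import Pool.Agent.Helper7.GeoProg.P_Greedy
import Pool.Agent.Helper7.GeoProg.P_A1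
import Pool.Agent.Helper7.GeoProg.P_A34
import Pool.Agent.Helper7.GeoProg.P_A5
import Pool.Agent.Helper7.GeoProg.P_A6
import Pool.Agent.Helper7.GeoProg.P_A7
import Pool.Agent.Helper7.GeoProg.P_E1
import Pool.Agent.Helper7.GeoProg.P_E2
import Pool.Agent.Helper7.GeoProg.P_E3
import Pool.Agent.Helper7.GeoProg.P_E5
import Pool.Agent.Helper7.GeoProg.P_E6

set_option autoImplicit false

namespace Pool.Agent.Results.MP_f5ac68_nt.AlphaExpansion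

open GeoProg

/-- Second-order expansions of `α_k` and `β_k`, and `β_k < α_k` with the right order.
Here `3^m` is the least power of `3` above `2^(k-1)`. -/
theorem result :
    (∀ k m : ℕ, 3 ≤ k → 2 ^ (k - 1) < 3 ^ m → 3 ^ m ≤ 3 * 2 ^ (k - 1) →
      alpha k ≤ 1 - 1 / 2 ^ k - (1 - |(3 : ℝ) ^ m / 2 ^ k - 1|) / 3 ^ k) ∧
    (∃ C : ℝ, ∀ k m : ℕ, 3 ≤ k → 2 ^ (k - 1) < 3 ^ m → 3 ^ m ≤ 3 * 2 ^ (k - 1) →
      1 - 1 / 2 ^ k - (1 - |(3 : ℝ) ^ m / 2 ^ k - 1|) / 3 ^ k - C * (3 / 11) ^ k ≤ alpha k) ∧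
    (∃ C : ℝ, ∀ k : ℕ, 3 ≤ k → |beta k - (1 - 1 / 2 ^ k - 2 / 3 ^ k)| ≤ C / 4 ^ k) ∧
    (∃ c : ℝ, 0 < c ∧ ∀ k : ℕ, 3 ≤ k → c / 3 ^ k ≤ alpha k - beta k) := by
  have hD2 := stmtD2 stmtV1 stmtV3
  have hQ := stmtQ stmtR stmtV1 stmtV2
  have hG2 := stmtG2 stmtV1 stmtV2
  have hU1 := stmtU1 stmtD1
  have hU2 := stmtU2 stmtD1
  have hB1 := stmtB1 stmtD1 hD2
  have hB2 := stmtB2 stmtD1 hD2
  have hG := gap_order (fun k hk => beta_asym_lower hQ stmtA3 hB1 stmtA6 hk)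
    (fun k hk => beta_asym_upper stmtR stmtL hU1 stmtA5 hk)
    (fun k hk => alpha_asym_lower hQ stmtA3 hB2 stmtB3 stmtA6 stmtA7 hk)
    stmtA4
    (beta_lt_alpha stmtV1 stmtR stmtL hQ stmtQt stmtS stmtDl hU1 hB2 stmtB3 hG2
      (stmtM stmtV1 stmtV2 stmtG1))
  exact expansions hG.1 hG.2 hQ (stmtA1 stmtR stmtS hU2) stmtA2 stmtA3 hB2 stmtB3 stmtA6
    stmtE1 stmtE2 stmtE3 stmtE5 stmtE6

end Pool.Agent.Results.MP_f5ac68_nt.AlphaExpansion
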