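import Pool.Agent.Helper54.GP.Main

/-!
# The supremum `β_k` is attained

For every `k ≥ 3` there is a set of positive integers without a `k`-term geometric progression
which has asymptotic density exactly `β_k`, and every set of positive integers without a `k`-term
geometric progression has lower asymptotic density at most `β_k` and upper logarithmic density at
most `β_k`.
-/

namespace Pool.Agent.Results.MP_f5ac68_nt.BetaAttained

open Finset Filter Topology

/-- The family `GPF_k`: `A` is a set of positive integers which contains no `k`-term geometric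
progression `a, a q, …, a q ^ (k - 1)` with a positive integer `a` and a rational `q > 1`. -/
def GPFree (k : ℕ) (A : Set ℕ) : Prop :=
  (∀ n ∈ A, 0 < n) ∧
    ∀ (a : ℕ) (q : ℚ), 0 < a → 1 < q → ¬ ∀ i < k, ∃ n ∈ A, (n : ℚ) = a * q ^ i

open Classical in
/-- The proportion of the elements of `A` among the integers `1, …, x`. -/
noncomputable def proportion (A : Set ℕ) (x : ℕ) : ℝ := (((Icc 1 x).filter (· ∈ A)).card : ℝ) / x

/-- `A` has asymptotic density `d`. -/
def HasDensity (A : Set ℕ) (d : ℝ) : Prop := Tendsto (proportion A) atTop (𝓝 d)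

/-- The lower asymptotic density of `A`. -/
noncomputable def lowerDensity (A : Set ℕ) : ℝ := liminf (proportion A) atTop

open Classical in
/-- The upper logarithmic density of `A`: the upper limit of `(∑_{n ∈ A, n ≤ x} 1/n) / log x`. -/
noncomputable def upperLogDensity (A : Set ℕ) : ℝ :=
  limsup (fun x : ℕ => (∑ n ∈ (Icc 1 x).filter (· ∈ A), (1 : ℝ) / n) / Real.log x) atTop

/-- `β_k`: the supremum of the asymptotic densities of the members of `GPF_k` that have an
asymptotic density. -/
noncomputable def beta (k : ℕ) : ℝ := sSup {d | ∃ A, GPFree k A ∧ HasDensity A d}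

/-- For every `k ≥ 3` some member of `GPF_k` has asymptotic density `β_k`, and all members of
`GPF_k` have lower asymptotic density `≤ β_k` and upper logarithmic density `≤ β_k`. -/
theorem result : ∀ k : ℕ, 3 ≤ k →
    (∃ A : Set ℕ, GPFree k A ∧ HasDensity A (beta k)) ∧
    ∀ A : Set ℕ, GPFree k A → lowerDensity A ≤ beta k ∧ upperLogDensity A ≤ beta k := by
  intro k hk
  obtain ⟨h1, _, h3, _⟩ := Pool.Agent.Helper54.GP.main hk
  exact ⟨h1, fun A hA => ⟨(h3 A hA).2, (h3 A hA).1⟩⟩

end Pool.Agent.Results.MP_f5ac68_nt.BetaAttained
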