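import Pool.Agent.Helper54.GP.Formula

/-!
# Formulas for `β_k`

`β_k` is the limit of `L_k(x) / log x`, where `L_k(x)` is the maximum of `∑_{b ∈ B} 1/b` over the
sets `B ⊆ {1, …, x}` without a `k`-term geometric progression; and `β_k` is computable with an
explicit error from finite optimization problems among the integers with prime factors `< y`.
-/

namespace Pool.Agent.Results.MP_f5ac68_nt.BetaFormula

open Finset Filter Topology

/-- The family `GPF_k`: `A` is a set of positive integers which contains no `k`-term geometric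
progression `a, a q, …, a q ^ (k - 1)` with a positive integer `a` and a rational `q > 1`. -/
def GPFree (k : ℕ) (A : Set ℕ) : Prop :=
  (∀ n ∈ A, 0 < n) ∧
    ∀ (a : ℕ) (q : ℚ), 0 < a → 1 < q → ¬ ∀ i < k, ∃ n ∈ A, (n : ℚ) = a * q ^ i

open Classical in
/-- The proportion of the elements of `A` among the integers `1, …, x`. -/
noncomputable def proportion (A : Set ℕ) (x : ℕ) : ℝ := (((Icc 1 x).filter (· ∈ A)).card : ℝ) / x

/-- `A` has asymptotic density `d`. -/
def HasDensity (A : Set ℕ) (d : ℝ) : Prop := Tendsto (proportion A) atTop (𝓝 d)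

/-- `β_k`: the supremum of the asymptotic densities of the members of `GPF_k` that have an
asymptotic density. -/
noncomputable def beta (k : ℕ) : ℝ := sSup {d | ∃ A, GPFree k A ∧ HasDensity A d}

/-- `L_k(x)`: the maximum of `∑_{b ∈ B} 1/b` over the members `B` of `GPF_k` contained in
`{1, …, x}`. -/
noncomputable def L (k x : ℕ) : ℝ :=
  sSup {w | ∃ B ⊆ Icc 1 x, GPFree k (B : Set ℕ) ∧ w = ∑ b ∈ B, 1 / (b : ℝ)}

/-- `Φ(y) = ∏_{p < y} (1 - 1/p)`, the product over the primes `p < y`. -/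
noncomputable def Phi (y : ℕ) : ℝ := ∏ p ∈ Nat.primesBelow y, (1 - 1 / (p : ℝ))

open Classical in
/-- `S(y, T)`: the positive integers `s ≤ T` all of whose prime factors are `< y`. -/
noncomputable def S (y T : ℕ) : Finset ℕ := (Icc 1 T).filter (· ∈ Nat.smoothNumbers y)

/-- `M_k(y, T)`: the maximum of `∑_{b ∈ B} 1/b` over the members `B` of `GPF_k` contained in
`S(y, T)`. -/
noncomputable def M (k y T : ℕ) : ℝ :=
  sSup {w | ∃ B ⊆ S y T, GPFree k (B : Set ℕ) ∧ w = ∑ b ∈ B, 1 / (b : ℝ)}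

/-- For every `k ≥ 3`: `L_k(x) / log x` tends to `β_k`; and for every `y ≥ 3` the number
`Φ(y) M_k(y, T)` differs from `β_k` by at most `ε(y, T) + 1/(y - 1)` for all `T ≥ 1`, where
`ε(y, T) = 1 - Φ(y) ∑_{s ∈ S(y, T)} 1/s` tends to `0` as `T` tends to infinity. -/
theorem result : ∀ k : ℕ, 3 ≤ k →
    Tendsto (fun x : ℕ => L k x / Real.log x) atTop (𝓝 (beta k)) ∧
    ∀ y : ℕ, 3 ≤ y →
      (∀ T : ℕ, 1 ≤ T → |Phi y * M k y T - beta k| ≤
        (1 - Phi y * ∑ s ∈ S y T, 1 / (s : ℝ)) + 1 / ((y : ℝ) - 1)) ∧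
      Tendsto (fun T : ℕ => 1 - Phi y * ∑ s ∈ S y T, 1 / (s : ℝ)) atTop (𝓝 0) := by
  intro k hk
  obtain ⟨_, _, _, h4, _, h6, _, _⟩ := Pool.Agent.Helper54.GP.main hk
  refine ⟨Pool.Agent.Helper54.GP.tendsto_L hk, fun y hy => ⟨fun T hT => h4 y T hy hT, ?_⟩⟩
  have := (h6 y).const_sub 1
  rw [sub_self] at this
  exact this

end Pool.Agent.Results.MP_f5ac68_nt.BetaFormula
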