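import Pool.Agent.Helper80.GeoZeta.Low

set_option autoImplicit false

namespace Pool.Agent.Results.MP_f5ac68_nt.RankinNearOptimal

open GeoProg Pool.Agent.Helper80.GeoZeta

lemma product_gpFree {k : ℕ} (hk : 3 ≤ k) (S : ℕ → Set ℕ)
    (hS : ∀ p : ℕ, p.Prime → APFree k (S p)) :
    GPFree k {m | 0 < m ∧ ∀ p : ℕ, p.Prime → m.factorization p ∈ S p} := by
  refine ⟨fun m hm => hm.1, fun h => ?_⟩
  obtain ⟨x, hx, h01, hrel⟩ := (stmtV1 k _ hk (fun m hm => hm.1)).1 h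
  have hpos : ∀ i < k, 0 < x i := fun i hi => (hx i hi).1
  obtain ⟨hval, _⟩ := stmtV2 k x hk hpos hrel
  have : x 0 = x 1 := by
    apply Nat.eq_of_factorization_eq (hpos 0 (by omega)).ne' (hpos 1 (by omega)).ne'
    intro p
    by_cases hp : p.Prime
    · obtain ⟨c, d, hcd⟩ := hval p
      have hd := ap_const (hS p hp) hk (fun i => (x i).factorization p) c d hcd
        (fun i hi => (hx i hi).2 p hp)
      have h0 := hcd 0 (by omega)
      have h1 := hcd 1 (by omega)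
      rw [hd] at h0 h1
      omega
    · rw [Nat.factorization_eq_zero_of_not_prime _ hp, Nat.factorization_eq_zero_of_not_prime _ hp]
  omega

/-- the upper density of a product set is at most the level `n` product of the greedy factors -/
lemma product_le_gg {k : ℕ} (hk : 3 ≤ k) (S : ℕ → Set ℕ)
    (hS : ∀ p : ℕ, p.Prime → APFree k (S p)) (n : ℕ) :
    upperDensity {m | 0 < m ∧ ∀ p : ℕ, p.Prime → m.factorization p ∈ S p} ≤ gg k n := by
  refine (stmtP1 stmtR stmtS stmtD1 n S).trans ?_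
  apply mul_le_mul_of_nonneg_left _ (delta_pos' n).le
  apply Finset.prod_le_prod
  · intro p _
    exact tsum_nonneg (fun a => Set.indicator_nonneg (fun _ _ => by positivity) a)
  · intro p hp
    have hpp := Nat.prime_of_mem_primesBelow hp
    rw [gw_indicator]
    exact stmtG3 k p (S p) hk hpp.two_le (hS p hpp)

/-- There is `M ≥ 1` such that for every `k ≥ 3`, with `r` the least prime factor of `k` and
`b = min 30 (3 * 2 ^ r)` (so `b = 12` for even `k`, `24` for odd multiples of `3`, and `30` for `k`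
coprime to `6`), Rankin's greedy set `Gset k` has a density `g` with the following properties:

* every product set, i.e. every set `{m : v_p(m) ∈ S_p for all primes p}` with sets of exponents
  `S_p` without `k`-term arithmetic progression, is in `GPF_k` and has upper density at most `g`;
* `g + M ^ (-k) ≤ beta k ≤ g + 10 ^ 5 k ^ 3 / b ^ k`;
* `zeta k / zeta (k-1) - 4 / 2 ^ (r (k-1)) ≤ g ≤ zeta k / zeta (k-1)`;
* if `k` is coprime to `6` then `|beta k - zeta k / zeta (k-1)| ≤ 10 ^ 5 k ^ 3 / 30 ^ k`. -/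
theorem result : ∃ M : ℝ, 1 ≤ M ∧ ∀ k : ℕ, 3 ≤ k → ∃ g : ℝ, HasDensity (Gset k) g ∧
    (∀ S : ℕ → Set ℕ, (∀ p : ℕ, p.Prime → APFree k (S p)) →
      GPFree k {m | 0 < m ∧ ∀ p : ℕ, p.Prime → m.factorization p ∈ S p} ∧
      upperDensity {m | 0 < m ∧ ∀ p : ℕ, p.Prime → m.factorization p ∈ S p} ≤ g) ∧
    g + 1 / M ^ k ≤ beta k ∧
    beta k ≤ g + 10 ^ 5 * (k : ℝ) ^ 3 / ((min 30 (3 * 2 ^ k.minFac) : ℕ) : ℝ) ^ k ∧
    zeta k / zeta (k - 1) - 4 / 2 ^ (k.minFac * (k - 1)) ≤ g ∧ g ≤ zeta k / zeta (k - 1) ∧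
    (k.Coprime 6 → |beta k - zeta k / zeta (k - 1)| ≤ 10 ^ 5 * (k : ℝ) ^ 3 / 30 ^ k) := by
  classical
  have hex : ∀ k : ℕ, ∃ g : ℝ, 3 ≤ k →
      (Filter.Tendsto (gg k) Filter.atTop (nhds g) ∧ (∀ n, g ≤ gg k n) ∧ g < beta k) := by
    intro k
    by_cases hk : 3 ≤ k
    · obtain ⟨g, hg, hgn⟩ := exists_gg hk
      refine ⟨g, fun _ => ⟨hg, hgn, ?_⟩⟩
      have hD2 := stmtD2 stmtV1 stmtV3
      obtain ⟨c, hc, h⟩ := product_sets_lt_beta (stmtQ stmtR stmtV1 stmtV2) stmtQt stmtS stmtDl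
        (stmtB1 stmtD1 hD2) (stmtG2 stmtV1 stmtV2) stmtG3 (stmtP1 stmtR stmtS stmtD1) stmtP2
        (stmtM stmtV1 stmtV2 stmtG1) k hk
      have hdens := hasDensity_Gset stmtD1 (stmtQ stmtR stmtV1 stmtV2) stmtQt stmtS
        (stmtP1 stmtR stmtS stmtD1) stmtP2 hk hg hgn
      refine lt_of_le_of_lt ?_ hc
      rw [hdens.eq_upper]
      exact h (fun _ => {a | GreedyExp k a}) (fun _ _ => apFree_greedy hk)
    · exact ⟨0, fun h => absurd h hk⟩
  choose g hg using hex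
  obtain ⟨M, hM, hlow⟩ := lower_exp g (fun k hk => (hg k hk).2.1) (fun k hk => (hg k hk).2.2)
  refine ⟨M, hM, fun k hk => ⟨g k, ?_, fun S hS => ⟨product_gpFree hk S hS, ?_⟩, hlow k hk, ?_⟩⟩
  · exact hasDensity_Gset stmtD1 (stmtQ stmtR stmtV1 stmtV2) stmtQt stmtS
      (stmtP1 stmtR stmtS stmtD1) stmtP2 hk (hg k hk).1 (hg k hk).2.1
  · exact ge_of_tendsto' (hg k hk).1 (product_le_gg hk S hS)
  · obtain ⟨h1, h2⟩ := gg_bounds hk (hg k hk).1
    have h3 : beta k ≤ g k + 10 ^ 5 * (k : ℝ) ^ 3 / (bb k : ℝ) ^ k :=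
      ge_of_tendsto' ((hg k hk).1.add_const _) (beta_le_gg hk)
    exact ⟨h3, h1, h2, fun h6 => abs_beta_le hk h6 (hg k hk).2.2 h1 h2 h3⟩

end Pool.Agent.Results.MP_f5ac68_nt.RankinNearOptimal
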